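import Pool.Agent.Helper77.SO.St3
import Pool.Agent.Helper35.PM.M_POT

/-! MP_7a9ddc_co, project SO, module BU: parallel darts are contiguous. -/

set_option autoImplicit false

namespace Pool.Agent.Helper80.SO.BU

open Equiv Equiv.Perm Pool.Agent.Helper35.PM Pool.Agent.Helper77.HY Pool.Agent.Helper77.OF4
  Pool.Agent.Helper77.SO

theorem step {V D : Type} (M : PMap V D) (d : D) (h : Function.minimalPeriod M.φ (M.r d) = 2) :
    M.t (M.ι (M.r d)) = M.t (M.ι d) := by
  have h1 : M.φ (M.φ (M.r d)) = M.r d := by
    have := Function.isPeriodicPt_minimalPeriod M.φ (M.r d)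
    rw [h] at this
    exact this
  have h2 : M.φ (M.ι d) = M.r d := by
    rw [PMap.φ_apply, M.inv]
  have h3 : M.φ (M.r d) = M.ι d := M.φ.injective (h1.trans h2.symm)
  rw [← t_φ M (M.r d), h3]

theorem main : StBu := by
  intro V D _ M L hL hHC hnl hodd a b c e hAlt hca
  classical
  have := Fintype.ofFinite D
  obtain ⟨i, j, k, hi, hij, hjk, hk, rfl, rfl, rfl⟩ := hAlt
  have hinj : ∀ s s', s < Function.minimalPeriod M.r a → s' < Function.minimalPeriod M.r a →
      (M.r ^ s) a = (M.r ^ s') a → s = s' := by
    intro s s' hs hs' h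
    rw [← Equiv.Perm.iterate_eq_pow, ← Equiv.Perm.iterate_eq_pow] at h
    exact Function.iterate_injOn_Iio_minimalPeriod hs hs' h
  have hta : ∀ s, M.t ((M.r ^ s) a) = M.t a := fun s => M.t_pow a s
  have hw : M.t (M.ι a) ≠ M.t a := hnl a
  let x : D → ZMod 2 := fun d => (if d = a then 1 else 0) + (if d = M.ι a then 1 else 0) +
    ((if d = (M.r ^ j) a then 1 else 0) + (if d = M.ι ((M.r ^ j) a) then 1 else 0))
  have hxι : ∀ d, x (M.ι d) = x d := by
    intro d
    have e1 : ∀ f, M.ι d = M.ι f ↔ d = f := fun f => M.inv.injective.eq_iff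
    have e2 : ∀ f, M.ι d = f ↔ d = M.ι f := fun f =>
      ⟨fun h => by rw [← h, M.inv], fun h => by rw [h, M.inv]⟩
    show (if M.ι d = a then (1 : ZMod 2) else 0) + (if M.ι d = M.ι a then 1 else 0) +
      ((if M.ι d = (M.r ^ j) a then 1 else 0) + (if M.ι d = M.ι ((M.r ^ j) a) then 1 else 0)) =
      (if d = a then 1 else 0) + (if d = M.ι a then 1 else 0) +
      ((if d = (M.r ^ j) a then 1 else 0) + (if d = M.ι ((M.r ^ j) a) then 1 else 0))
    simp only [e1, e2]
    ring
  have hsum : ∀ v, ∑ d ∈ Finset.univ.filter (fun d => M.t d = v), x d = 0 := by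
    intro v
    have e1 : ∀ f : D, ∑ d ∈ Finset.univ.filter (fun d => M.t d = v),
        (if d = f then (1 : ZMod 2) else 0) = if M.t f = v then 1 else 0 := by
      intro f
      rw [Finset.sum_ite_eq']
      simp
    show ∑ d ∈ Finset.univ.filter (fun d => M.t d = v), ((if d = a then (1 : ZMod 2) else 0) +
      (if d = M.ι a then 1 else 0) +
      ((if d = (M.r ^ j) a then 1 else 0) + (if d = M.ι ((M.r ^ j) a) then 1 else 0))) = 0
    rw [Finset.sum_add_distrib, Finset.sum_add_distrib, Finset.sum_add_distrib, e1, e1, e1, e1,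
      hta, hca]
    exact zadd_self _
  obtain ⟨u, hu⟩ := M_POT.main V D M x hsum
  obtain ⟨y, hy1, hy2⟩ := M.pl x u hxι hu
  have hFC : FC M y := by
    intro d
    rw [PMap.φ_apply, hy1, hy2, hxι]
    exact zadd_self' _ _
  have hcut : cut M y ≤ 4 := by
    unfold cut
    have h1 : {d | y (M.ι d) ≠ y d} ⊆
        (({a, M.ι a, (M.r ^ j) a, M.ι ((M.r ^ j) a)} : Finset D) : Set D) := by
      intro d hd
      by_contra h2
      apply hd
      simp only [Finset.coe_insert, Finset.coe_singleton, Set.mem_insert_iff,
        Set.mem_singleton_iff, not_or] at h2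
      obtain ⟨h3, h4, h5, h6⟩ := h2
      rw [hy2]
      show y d + ((if d = a then (1 : ZMod 2) else 0) + (if d = M.ι a then 1 else 0) +
        ((if d = (M.r ^ j) a then 1 else 0) + (if d = M.ι ((M.r ^ j) a) then 1 else 0))) = y d
      rw [if_neg h3, if_neg h4, if_neg h5, if_neg h6]
      simp
    refine (Set.ncard_le_ncard h1 (Finset.finite_toSet _)).trans ?_
    rw [Set.ncard_coe_finset]
    exact Finset.card_le_four
  have hns : ¬ Sep M y := by
    intro h
    have := hHC y hFC h
    omega
  -- values along the rotation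
  have hx0 : x a = 1 := by
    have h1 : a ≠ M.ι a := fun h => M.nofix a h.symm
    have h2 : a ≠ (M.r ^ j) a := by
      intro h
      have := hinj 0 j (by omega) (by omega) (by simpa using h)
      omega
    have h3 : a ≠ M.ι ((M.r ^ j) a) := by
      intro h
      apply hw
      rw [← hca, ← h]
    show (if a = a then (1 : ZMod 2) else 0) + (if a = M.ι a then 1 else 0) +
        ((if a = (M.r ^ j) a then 1 else 0) + (if a = M.ι ((M.r ^ j) a) then 1 else 0)) = 1
    rw [if_pos rfl, if_neg h1, if_neg h2, if_neg h3]
    simp
  have hxs : ∀ s, 0 < s → s < Function.minimalPeriod M.r a →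
      x ((M.r ^ s) a) = if s = j then 1 else 0 := by
    intro s hs0 hs
    have h0 : (M.r ^ s) a ≠ a := by
      intro h
      have := hinj s 0 hs (by omega) (by simpa using h)
      omega
    have h1 : (M.r ^ s) a ≠ M.ι a := by
      intro h
      apply hw
      rw [← h, hta]
    have h3 : (M.r ^ s) a ≠ M.ι ((M.r ^ j) a) := by
      intro h
      apply hw
      rw [← hca, ← h, hta]
    have h2 : (M.r ^ s) a = (M.r ^ j) a ↔ s = j := by
      constructor
      · intro h
        exact hinj s j hs (by omega) h
      · rintro rfl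
        rfl
    show (if (M.r ^ s) a = a then (1 : ZMod 2) else 0) + (if (M.r ^ s) a = M.ι a then 1 else 0) +
        ((if (M.r ^ s) a = (M.r ^ j) a then 1 else 0) +
        (if (M.r ^ s) a = M.ι ((M.r ^ j) a) then 1 else 0)) = if s = j then 1 else 0
    rw [if_neg h0, if_neg h1, if_neg h3]
    simp only [h2]
    simp
  have hA : ∀ s, 1 ≤ s → s ≤ j → y ((M.r ^ s) a) = y a + 1 := by
    intro s hs1 hs2
    induction s, hs1 using Nat.le_induction with
    | base => rw [pow_one, hy1, hx0]
    | succ s hs ih =>
      rw [pow_succ', Perm.mul_apply, hy1, ih (by omega), hxs s (by omega) (by omega),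
        if_neg (by omega), add_zero]
  have hB : ∀ s, j + 1 ≤ s → s < Function.minimalPeriod M.r a → y ((M.r ^ s) a) = y a := by
    intro s hs1 hs2
    induction s, hs1 using Nat.le_induction with
    | base =>
      rw [pow_succ', Perm.mul_apply, hy1, hA j (by omega) le_rfl, hxs j (by omega) (by omega),
        if_pos rfl]
      exact zadd_self' _ _
    | succ s hs ih =>
      rw [pow_succ', Perm.mul_apply, hy1, ih (by omega), hxs s (by omega) (by omega),
        if_neg (by omega), add_zero]
  by_cases hη : ∃ d, OddD M d ∧ y d = y a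
  · -- all the odd darts have the value `y a`
    left
    obtain ⟨d0, hd0, hyd0⟩ := hη
    have hall : ∀ d, y d = y a + 1 → Function.minimalPeriod M.φ d = 2 := by
      intro d hd
      refine (hodd d).resolve_right fun h => hns ⟨d0, d, hd0, h, ?_⟩
      rw [hyd0, hd]
      intro h'
      have := eq_zero_of_eq_add h'
      exact absurd this (by decide)
    have key : ∀ s, s ≤ j → M.t (M.ι ((M.r ^ s) a)) = M.t (M.ι a) := by
      intro s
      induction s with
      | zero => intro _; simp
      | succ s ih =>
        intro hs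
        rw [← ih (by omega), pow_succ', Perm.mul_apply]
        apply step
        apply hall
        have := hA (s + 1) (by omega) hs
        rw [pow_succ', Perm.mul_apply] at this
        exact this
    exact key i (by omega)
  · right
    have hall : ∀ d, y d = y a → Function.minimalPeriod M.φ d = 2 := by
      intro d hd
      exact (hodd d).resolve_right fun h => hη ⟨d, h, hd⟩
    have key : ∀ s, j ≤ s → s < Function.minimalPeriod M.r a →
        M.t (M.ι ((M.r ^ s) a)) = M.t (M.ι a) := by
      intro s hs
      induction s, hs using Nat.le_induction with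
      | base => intro _; exact hca
      | succ s hs ih =>
        intro hs'
        rw [← ih (by omega), pow_succ', Perm.mul_apply]
        apply step
        apply hall
        have := hB (s + 1) (by omega) hs'
        rw [pow_succ', Perm.mul_apply] at this
        exact this
    exact key k (by omega) hk

end Pool.Agent.Helper80.SO.BU
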